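import Pool.Agent.W409.CS.Short

set_option autoImplicit false

/-! # Products of consecutive Liouville values in short intervals -/

namespace Pool.Agent.W409.CS

open Finset Pool.Agent.H376R2.MR

/-- `λ(n) λ(n+1) ⋯ λ(n+k-1)` -/
def PK (k n : ℕ) : ℤ := ∏ i ∈ range k, lam (n + i)

lemma pm_mul' {u v : ℤ} (hu : u = 1 ∨ u = -1) (hv : v = 1 ∨ v = -1) : u * v = 1 ∨ u * v = -1 := by
  rcases hu with rfl | rfl <;> rcases hv with rfl | rfl <;> norm_num

lemma pm_sq {u : ℤ} (hu : u = 1 ∨ u = -1) : u * u = 1 := by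
  rcases hu with rfl | rfl <;> norm_num

lemma prod_pm' (s : Finset ℕ) {f : ℕ → ℤ} (hf : ∀ i, f i = 1 ∨ f i = -1) :
    ∏ i ∈ s, f i = 1 ∨ ∏ i ∈ s, f i = -1 := by
  classical
  induction s using Finset.induction_on with
  | empty => left; simp
  | insert a s ha ih => rw [prod_insert ha]; exact pm_mul' (hf a) ih

lemma PK_pm (k n : ℕ) : PK k n = 1 ∨ PK k n = -1 := prod_pm' _ fun i => lam_pm' (n + i)

lemma PK_mul (k n : ℕ) : PK k n * PK k (n + 1) = lam n * lam (n + k) := by
  have h1 : PK k (n + 1) * lam n = PK k n * lam (n + k) := by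
    unfold PK
    have e1 := Finset.prod_range_succ (fun i => lam (n + i)) k
    have e2 := Finset.prod_range_succ' (fun i => lam (n + i)) k
    rw [e1] at e2
    rw [e2]
    simp only [add_zero]
    congr 1
    refine Finset.prod_congr rfl fun i _ => ?_
    congr 1
    ring
  have h2 := pm_sq (PK_pm k n)
  have h3 := pm_sq (lam_pm' n)
  calc PK k n * PK k (n + 1) = PK k n * (PK k (n + 1) * lam n) * lam n := by
        rw [show PK k n * (PK k (n + 1) * lam n) * lam n = PK k n * PK k (n + 1) * (lam n * lam n) by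
          ring, h3, mul_one]
    _ = (PK k n * PK k n) * lam n * lam (n + k) := by rw [h1]; ring
    _ = lam n * lam (n + k) := by rw [h2, one_mul]

/-- the product of a `q`-periodic sign sequence over `2q` terms of a progression is `1` -/
lemma prod_periodic {q k : ℕ} {ξ : ℕ → ℤ} (hξ : ∀ n, ξ n = 1 ∨ ξ n = -1)
    (hper : ∀ n, ξ (n + q) = ξ n) (u : ℕ) : ∏ j ∈ range (2 * q), ξ (u + j * k) = 1 := by
  have hper' : ∀ n t, ξ (n + t * q) = ξ n := by
    intro n t
    induction t with
    | zero => simp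
    | succ t ih => rw [show n + (t + 1) * q = (n + t * q) + q by ring, hper, ih]
  rw [two_mul, prod_range_add]
  have h1 : ∏ j ∈ range q, ξ (u + (q + j) * k) = ∏ j ∈ range q, ξ (u + j * k) := by
    refine prod_congr rfl fun j _ => ?_
    rw [show u + (q + j) * k = (u + j * k) + k * q by ring, hper']
  rw [h1]
  exact pm_sq (prod_pm' _ fun j => hξ (u + j * k))

/-- telescoping -/
lemma prod_tele (k u : ℕ) : ∀ r : ℕ, ∏ j ∈ range r, (lam (u + j * k) * lam (u + j * k + k)) =
    lam u * lam (u + r * k) := by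
  intro r
  induction r with
  | zero => simp [pm_sq (lam_pm' u)]
  | succ r ih =>
    rw [prod_range_succ, ih, show u + (r + 1) * k = u + r * k + k by ring]
    rw [show lam u * lam (u + r * k) * (lam (u + r * k) * lam (u + r * k + k)) =
      lam u * (lam (u + r * k) * lam (u + r * k)) * lam (u + r * k + k) by ring,
      pm_sq (lam_pm' _), mul_one]

/-- a sign change of `λ` at distance `M = 2qk` forces both signs of `ξ P_k` nearby -/
lemma exists_sign {q k : ℕ} (hk : 1 ≤ k) {ξ : ℕ → ℤ}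
    (hξ : ∀ n, ξ n = 1 ∨ ξ n = -1)
    (hper : ∀ n, ξ (n + q) = ξ n) {σ : ℤ} (hσ : σ = 1 ∨ σ = -1) {u : ℕ}
    (hu : lam u ≠ lam (u + 2 * q * k)) :
    ∃ n, u ≤ n ∧ n ≤ u + 2 * q * k ∧ ξ n * PK k n = σ := by
  by_contra hcon
  push Not at hcon
  apply hu
  have hval : ∀ n, u ≤ n → n ≤ u + 2 * q * k → ξ n * PK k n = -σ := by
    intro n h1 h2
    have h3 := hcon n h1 h2
    rcases pm_mul' (hξ n) (PK_pm k n) with h4 | h4 <;> rcases hσ with h5 | h5
    · exact absurd (h4.trans h5.symm) h3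
    · rw [h4, h5]; norm_num
    · rw [h4, h5]
    · exact absurd (h4.trans h5.symm) h3
  have hσσ : (-σ) * (-σ) = 1 := by rcases hσ with rfl | rfl <;> norm_num
  have h1 : ∏ j ∈ range (2 * q), ((ξ (u + j * k) * PK k (u + j * k)) *
      (ξ (u + j * k + 1) * PK k (u + j * k + 1))) = 1 := by
    apply prod_eq_one
    intro j hj
    rw [mem_range] at hj
    have h2 : j * k + k ≤ 2 * q * k := by
      calc j * k + k = (j + 1) * k := by ring
        _ ≤ 2 * q * k := Nat.mul_le_mul_right _ (by omega)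
    rw [hval _ (by omega) (by omega), hval _ (by omega) (by omega), hσσ]
  have h2 : ∏ j ∈ range (2 * q), ((ξ (u + j * k) * PK k (u + j * k)) *
      (ξ (u + j * k + 1) * PK k (u + j * k + 1))) =
      (∏ j ∈ range (2 * q), ξ (u + j * k)) * (∏ j ∈ range (2 * q), ξ (u + 1 + j * k)) *
      ∏ j ∈ range (2 * q), (lam (u + j * k) * lam (u + j * k + k)) := by
    rw [← prod_mul_distrib, ← prod_mul_distrib]
    refine prod_congr rfl fun j _ => ?_
    rw [← PK_mul, show u + 1 + j * k = u + j * k + 1 by ring]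
    ring
  rw [h2, prod_periodic hξ hper, prod_periodic hξ hper, one_mul, one_mul, prod_tele] at h1
  rcases lam_pm' u with h3 | h3 <;> rcases lam_pm' (u + 2 * q * k) with h4 | h4 <;>
    rw [h3, h4] at h1 <;> norm_num at h1 <;> rw [h3, h4]

set_option maxHeartbeats 1000000 in
theorem main : ∃ c : ℝ, 0 < c ∧ ∃ C : ℝ, 0 < C ∧ ∀ k q x y : ℕ, 1 ≤ k → 1 ≤ q → y ≤ x →
    C * ((q : ℝ) * k * x) ≤ (y : ℝ) ^ 2 → ∀ ξ : ℕ → ℤ, (∀ n, ξ n = 1 ∨ ξ n = -1) →
    (∀ n, ξ (n + q) = ξ n) → ∀ σ : ℤ, (σ = 1 ∨ σ = -1) →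
    c * (y : ℝ) ^ 2 / ((q : ℝ) * k * x) ≤
      (((Ioc x (x + y)).filter (fun n => ξ n * PK k n = σ)).card : ℝ) := by
  obtain ⟨c, hc, C, hC, hs⟩ := chg_short
  refine ⟨c / 64, by positivity, 16 * C, by positivity, ?_⟩
  intro k q x y hk hq hyx hCx ξ hξ hper σ hσ
  set E := (Ioc x (x + y)).filter (fun n => ξ n * PK k n = σ) with hE
  rcases Nat.eq_zero_or_pos x with hx0 | hx0
  · rw [hx0]; simp
  have hkr : (1 : ℝ) ≤ k := by exact_mod_cast hk
  have hqr : (1 : ℝ) ≤ q := by exact_mod_cast hq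
  have hxr : (1 : ℝ) ≤ x := by exact_mod_cast hx0
  have hyxr : (y : ℝ) ≤ x := by exact_mod_cast hyx
  have hy0 : (0 : ℝ) ≤ y := Nat.cast_nonneg y
  set M : ℕ := 2 * q * k with hM
  have hM1 : 2 ≤ M := by
    rw [hM]; nlinarith
  have hMr : (M : ℝ) = 2 * (q * k) := by rw [hM]; push_cast; ring
  have hqk : (1 : ℝ) ≤ q * k := by nlinarith
  have hypos : (0 : ℝ) < y := by
    have : 0 < C * ((q : ℝ) * k * x) := by positivity
    nlinarith
  have hyM : 8 * (M : ℝ) ≤ y := by
    have h1 : 16 * C * ((q : ℝ) * k) * y ≤ (y : ℝ) * y := by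
      have : 16 * C * ((q : ℝ) * k) * y ≤ 16 * C * ((q : ℝ) * k) * x :=
        mul_le_mul_of_nonneg_left hyxr (by positivity)
      nlinarith
    have h2 : 16 * C * ((q : ℝ) * k) ≤ y := le_of_mul_le_mul_right h1 hypos
    have h3 : 16 * ((q : ℝ) * k) ≤ 16 * C * ((q : ℝ) * k) := by nlinarith
    rw [hMr]; linarith
  have hyMn : 8 * M ≤ y := by exact_mod_cast hyM
  set X : ℕ := x / M + 1 with hX
  set Y : ℕ := y / M - 1 with hY
  have hMpos : 0 < M := by omega
  have hX1 : x < M * X := by rw [hX]; exact Nat.lt_mul_div_succ x hMpos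
  have hX2 : M * X ≤ x + M := by
    rw [hX, mul_add, mul_one]
    have := Nat.mul_div_le x M
    omega
  have hyMd : 8 ≤ y / M := by rw [Nat.le_div_iff_mul_le hMpos]; exact hyMn
  have hY1 : M * Y + M ≤ y := by
    rw [hY]
    have h1 := Nat.mul_div_le y M
    have h2 : M * (y / M - 1) + M = M * (y / M) := by
      rw [← Nat.mul_succ]
      congr 1
      omega
    omega
  have hYX : Y ≤ X := by
    have : y / M ≤ x / M := Nat.div_le_div_right hyx
    omega
  have hYr : (y : ℝ) / (2 * M) ≤ Y := by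
    have h1 : y < M * (Y + 2) := by
      have := Nat.lt_mul_div_succ y hMpos
      have h3 : y / M + 1 = Y + 2 := by omega
      rwa [h3] at this
    have h2 : (y : ℝ) < M * (Y + 2) := by exact_mod_cast h1
    rw [div_le_iff₀ (by positivity)]
    have h3 : 4 ≤ Y := by omega
    have h4 : (4 : ℝ) ≤ Y := by exact_mod_cast h3
    have h5 : (0 : ℝ) < M := by exact_mod_cast hMpos
    nlinarith
  have hXr : (X : ℝ) ≤ 2 * x / M := by
    have h1 : (M : ℝ) * X ≤ x + M := by exact_mod_cast hX2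
    have h5 : (0 : ℝ) < M := by exact_mod_cast hMpos
    rw [le_div_iff₀ h5]
    nlinarith
  have hX0 : 1 ≤ X := by omega
  have hXpos : (0 : ℝ) < X := by exact_mod_cast hX0
  have hMp : (0 : ℝ) < M := by exact_mod_cast hMpos
  have hY2 : ((y : ℝ) / (2 * M)) ^ 2 ≤ (Y : ℝ) ^ 2 := pow_le_pow_left₀ (by positivity) hYr 2
  have hCXY : C * X ≤ (Y : ℝ) ^ 2 := by
    refine le_trans ?_ hY2
    have h1 : C * X ≤ C * (2 * x / M) := mul_le_mul_of_nonneg_left hXr (by positivity)
    refine h1.trans ?_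
    rw [div_pow, mul_pow, mul_div_assoc', div_le_div_iff₀ hMp (by positivity)]
    have h2 : C * (2 * (x : ℝ)) * (2 ^ 2 * (M : ℝ) ^ 2) = (8 * C * (M * x)) * M := by ring
    rw [h2]
    apply mul_le_mul_of_nonneg_right _ hMp.le
    rw [hMr]
    nlinarith
  have hcnt := hs X Y hX0 hYX hCXY
  set S := (Ico X (X + Y)).filter (fun n => lam n ≠ lam (n + 1)) with hS
  have hSE : S.card ≤ 2 * E.card := by
    have hsub : S ⊆ E.image (fun n => n / M) ∪ E.image (fun n => n / M - 1) := by
      intro m hm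
      rw [hS, mem_filter, mem_Ico] at hm
      obtain ⟨⟨hm1, hm2⟩, hm3⟩ := hm
      have hu : lam (M * m) ≠ lam (M * m + 2 * q * k) := by
        rw [← hM, show M * m + M = M * (m + 1) by ring, lam_mul' (m := M) (n := m) (by omega) (by omega),
          lam_mul' (m := M) (n := m + 1) (by omega) (by omega)]
        intro h
        exact hm3 (mul_left_cancel₀ (lam_ne0 M) h)
      obtain ⟨n, hn1, hn2, hn3⟩ := exists_sign hk hξ hper hσ hu
      rw [← hM] at hn2
      have hnE : n ∈ E := by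
        rw [hE, mem_filter, mem_Ioc]
        have h1 : M * X ≤ M * m := Nat.mul_le_mul_left _ hm1
        have h2 : M * m + M ≤ M * (X + Y) := by
          rw [← Nat.mul_succ]
          exact Nat.mul_le_mul_left _ hm2
        rw [mul_add] at h2
        exact ⟨⟨by omega, by omega⟩, hn3⟩
      rw [mem_union, mem_image, mem_image]
      rcases Nat.lt_or_ge n (M * m + M) with h | h
      · left
        refine ⟨n, hnE, ?_⟩
        rw [Nat.div_eq_iff hMpos]
        constructor
        · rw [mul_comm]; exact hn1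
        · rw [mul_comm]; omega
      · right
        refine ⟨n, hnE, ?_⟩
        have h1 : n = M * (m + 1) := by rw [mul_add, mul_one]; omega
        rw [h1, Nat.mul_div_cancel_left _ hMpos]
        rfl
    refine (card_le_card hsub).trans ((card_union_le _ _).trans ?_)
    have h1 := card_image_le (s := E) (f := fun n => n / M)
    have h2 := card_image_le (s := E) (f := fun n => n / M - 1)
    omega
  have hSEr : (S.card : ℝ) ≤ 2 * E.card := by exact_mod_cast hSE
  have h1 : c / 64 * (y : ℝ) ^ 2 / ((q : ℝ) * k * x) ≤ (c * (Y : ℝ) ^ 2 / X) / 2 := by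
    have h2 : c * ((y : ℝ) / (2 * M)) ^ 2 / (2 * x / M) ≤ c * (Y : ℝ) ^ 2 / X := by
      apply div_le_div₀ (by positivity) (mul_le_mul_of_nonneg_left hY2 hc.le) hXpos hXr
    have h3 : c * ((y : ℝ) / (2 * M)) ^ 2 / (2 * x / M) = c * (y : ℝ) ^ 2 / (16 * (q * k * x)) := by
      rw [div_pow, hMr]
      field_simp
      ring
    have h4 : c / 64 * (y : ℝ) ^ 2 / ((q : ℝ) * k * x) =
        (c * (y : ℝ) ^ 2 / (16 * (q * k * x))) / 4 := by
      field_simp
      ring
    rw [h4, ← h3]
    have h5 : 0 ≤ c * ((y : ℝ) / (2 * M)) ^ 2 / (2 * x / M) := by positivity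
    linarith
  linarith

end Pool.Agent.W409.CS
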