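import Pool.Agent.H376R2.MR.Main

set_option autoImplicit false

/-! # Sign changes of the Liouville function in short intervals `[X, X + Y]`, `Y ≥ C √X` -/

namespace Pool.Agent.W409.CS

open Finset Pool.Agent.H376R2.MR

lemma lam_mul' {m n : ℕ} (hm : m ≠ 0) (hn : n ≠ 0) : lam (m * n) = lam m * lam n := by
  unfold lam
  rw [ArithmeticFunction.cardFactors_mul hm hn, pow_add]

lemma lam_pm' (n : ℕ) : lam n = 1 ∨ lam n = -1 := by
  unfold lam
  exact neg_one_pow_eq_or ℤ _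

lemma lam_ne0 (n : ℕ) : lam n ≠ 0 := by
  rcases lam_pm' n with h | h <;> rw [h] <;> norm_num

/-- a sign change between `u` and `u + t` -/
lemma exists_change (f : ℕ → ℤ) (u t : ℕ) (h : f u ≠ f (u + t)) :
    ∃ n, u ≤ n ∧ n < u + t ∧ f n ≠ f (n + 1) := by
  by_contra hcon
  push Not at hcon
  apply h
  have key : ∀ s, s ≤ t → f u = f (u + s) := by
    intro s
    induction s with
    | zero => intro _; rfl
    | succ s ih =>
      intro hs
      rw [ih (by omega), hcon (u + s) (by omega) (by omega)]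
      rfl
  exact key t le_rfl

set_option maxHeartbeats 2000000 in
theorem chg_short : ∃ c : ℝ, 0 < c ∧ ∃ C : ℝ, 1 ≤ C ∧ ∀ X Y : ℕ, 1 ≤ X → Y ≤ X →
    C * X ≤ (Y : ℝ) ^ 2 →
    c * (Y : ℝ) ^ 2 / X ≤ (((Ico X (X + Y)).filter (fun n => lam n ≠ lam (n + 1))).card : ℝ) := by
  obtain ⟨ε, hε, X₀, hmr⟩ := mr0
  -- wlog ε ≤ 1
  have hε1 : ε ≤ 1 := by
    have h1 := hmr (X₀ + 1) (by omega)
    have h2 : (chg (X₀ + 1) : ℝ) ≤ ((X₀ + 1 : ℕ) : ℝ) := by
      have : chg (X₀ + 1) ≤ X₀ + 1 := by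
        unfold chg
        refine (card_filter_le _ _).trans ?_
        rw [Nat.card_Icc]
        omega
      exact_mod_cast this
    have h3 : (0 : ℝ) < ((X₀ + 1 : ℕ) : ℝ) := by positivity
    by_contra hcon
    push Not at hcon
    nlinarith
  set η : ℝ := ε / 2 with hη
  have hη0 : 0 < η := by positivity
  have hη1 : η ≤ 1 / 2 := by rw [hη]; linarith
  set C : ℝ := 256 / η + (16 * X₀ + 16) ^ 2 with hC
  have hC1 : 256 / η ≤ C := by rw [hC]; nlinarith [sq_nonneg (16 * (X₀ : ℝ) + 16)]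
  have hC2 : (16 * (X₀ : ℝ) + 16) ^ 2 ≤ C := by
    rw [hC]; have : 0 < 256 / η := by positivity
    linarith
  have hC3 : 1 ≤ C := by nlinarith [(Nat.cast_nonneg X₀ : (0:ℝ) ≤ X₀)]
  refine ⟨η ^ 2 / (256 * 3), by positivity, C, hC3, ?_⟩
  intro X Y hX hYX hCX
  have hXr : (1 : ℝ) ≤ X := by exact_mod_cast hX
  have hYXr : (Y : ℝ) ≤ X := by exact_mod_cast hYX
  have hY0 : (0 : ℝ) ≤ Y := Nat.cast_nonneg Y
  have hY16 : 16 * (X₀ : ℝ) + 16 ≤ Y := by
    have h1 : (16 * (X₀ : ℝ) + 16) ^ 2 ≤ (Y : ℝ) ^ 2 := by nlinarith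
    exact le_of_sq_le_sq h1 hY0
  have hY16n : 16 * X₀ + 16 ≤ Y := by exact_mod_cast hY16
  set A : ℕ := Y / 8 with hA
  have hA1 : X₀ ≤ A := by omega
  have hA2 : 8 * A ≤ Y := by omega
  have hA3 : Y ≤ 16 * A := by omega
  have hA4 : 1 ≤ A := by omega
  have hA2r : 8 * (A : ℝ) ≤ Y := by exact_mod_cast hA2
  have hA3r : (Y : ℝ) ≤ 16 * A := by exact_mod_cast hA3
  have hA4r : (1 : ℝ) ≤ A := by exact_mod_cast hA4
  set S := (Icc 1 A).filter (fun a : ℕ => η * A < (a : ℝ) ∧ lam a ≠ lam (a + 1)) with hS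
  have hScard : η * A ≤ (S.card : ℝ) := by
    have h1 := hmr A hA1
    have h2 : chg A ≤ S.card + ⌊η * A⌋₊ := by
      unfold chg
      have hsub : (Icc 1 A).filter (fun n => lam n ≠ lam (n + 1)) ⊆ S ∪ Icc 1 ⌊η * A⌋₊ := by
        intro a ha
        rw [mem_filter] at ha
        rw [mem_union, hS, mem_filter, mem_Icc]
        by_cases h : η * A < (a : ℝ)
        · exact Or.inl ⟨mem_Icc.mp ha.1, h, ha.2⟩
        · right
          rw [mem_Icc] at ha
          exact mem_Icc.mpr ⟨ha.1.1, Nat.le_floor (not_lt.mp h)⟩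
      refine (card_le_card hsub).trans ((card_union_le _ _).trans ?_)
      rw [Nat.card_Icc]
      omega
    have h3 : (chg A : ℝ) ≤ S.card + (⌊η * A⌋₊ : ℝ) := by exact_mod_cast h2
    have h4 : (⌊η * A⌋₊ : ℝ) ≤ η * A := Nat.floor_le (by positivity)
    have h5 : ε * (A : ℝ) = 2 * (η * A) := by rw [hη]; ring
    linarith
  set G := (Ico X (X + Y)).filter (fun n => lam n ≠ lam (n + 1)) with hG
  set B : ℕ := ⌊(X : ℝ) / (η * A)⌋₊ + 1 with hB
  have hηA : 0 < η * A := by positivity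
  have hBr : (B : ℝ) ≤ X / (η * A) + 1 := by
    rw [hB]; push_cast
    have := Nat.floor_le (show 0 ≤ (X : ℝ) / (η * A) by positivity)
    linarith
  -- bound on `b0`
  have hb0 : ∀ a ∈ S, 1 ≤ a ∧ a ≤ A ∧ η * A < (a : ℝ) ∧ lam a ≠ lam (a + 1) := by
    intro a ha
    rw [hS, mem_filter, mem_Icc] at ha
    exact ⟨ha.1.1, ha.1.2, ha.2.1, ha.2.2⟩
  have hb1 : ∀ a ∈ S, X ≤ a * (X / a + 1) ∧ a * (X / a + 1) ≤ X + a ∧ X / a + 1 ≤ B := by
    intro a ha
    obtain ⟨h1, h2, h3, h4⟩ := hb0 a ha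
    have e1 := Nat.lt_mul_div_succ X h1
    have e2 := Nat.mul_div_le X a
    refine ⟨e1.le, by rw [mul_add]; omega, ?_⟩
    rw [hB]
    have e3 : X / a ≤ ⌊(X : ℝ) / (η * A)⌋₊ := by
      apply Nat.le_floor
      refine (Nat.cast_div_le).trans ?_
      exact div_le_div_of_nonneg_left (by positivity) hηA h3.le
    omega
  have hBY : (B : ℝ) ≤ Y / 8 := by
    have h1 : (X : ℝ) / (η * A) ≤ Y / 16 := by
      rw [div_le_iff₀ hηA]
      have h2 : 256 / η * X ≤ (Y : ℝ) ^ 2 := by nlinarith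
      have h3 : 256 * (X : ℝ) ≤ η * (Y : ℝ) ^ 2 := by
        have : 256 / η * X * η = 256 * X := by field_simp
        nlinarith
      have h4 : (Y : ℝ) / 16 * (η * A) = η * (Y * A) / 16 := by ring
      rw [h4]
      nlinarith [mul_nonneg hη0.le hY0, mul_le_mul_of_nonneg_left hA3r (mul_nonneg hη0.le hY0)]
    have h2 : (1 : ℝ) ≤ Y / 16 := by
      have := Nat.cast_nonneg (α := ℝ) X₀
      linarith
    linarith
  have hch : ∀ a ∈ S, ∃ n, n ∈ G ∧ a = n / (X / a + 1) := by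
    intro a ha
    obtain ⟨h1, h2, h3, h4⟩ := hb0 a ha
    obtain ⟨g1, g2, g3⟩ := hb1 a ha
    set b := X / a + 1 with hb
    have hbpos : 0 < b := by rw [hb]; exact Nat.succ_pos _
    have hne : lam (a * b) ≠ lam (a * b + b) := by
      rw [show a * b + b = (a + 1) * b by ring, lam_mul' (by omega) (by omega),
        lam_mul' (by omega) (by omega)]
      intro h
      exact h4 (mul_right_cancel₀ (lam_ne0 b) h)
    obtain ⟨n, hn1, hn2, hn3⟩ := exists_change lam (a * b) b hne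
    have hbY : 8 * b ≤ Y := by
      have : (8 * b : ℝ) ≤ Y := by
        have : (b : ℝ) ≤ B := by exact_mod_cast g3
        linarith
      exact_mod_cast this
    refine ⟨n, ?_, ?_⟩
    · rw [hG, mem_filter, mem_Ico]
      refine ⟨⟨by omega, ?_⟩, hn3⟩
      omega
    · symm
      rw [Nat.div_eq_iff hbpos]
      constructor
      · exact hn1
      · omega
  choose! φ hφ1 hφ2 using hch
  have hcard : S.card ≤ G.card * B := by
    have h1 : (S.image (fun a => (φ a, X / a + 1))).card = S.card := by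
      apply card_image_of_injOn
      intro a ha a' ha' h
      simp only [Prod.mk.injEq] at h
      rw [hφ2 a ha, hφ2 a' ha', h.1, h.2]
    rw [← h1]
    have h2 : S.image (fun a => (φ a, X / a + 1)) ⊆ G ×ˢ Icc 1 B := by
      intro z hz
      rw [mem_image] at hz
      obtain ⟨a, ha, rfl⟩ := hz
      rw [mem_product, mem_Icc]
      exact ⟨hφ1 a ha, by simp, (hb1 a ha).2.2⟩
    refine (card_le_card h2).trans ?_
    rw [card_product, Nat.card_Icc]
    simp
  have hcardr : (S.card : ℝ) ≤ G.card * B := by exact_mod_cast hcard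
  have hBX : (B : ℝ) ≤ 3 * X / (2 * (η * A)) := by
    have h1 : (A : ℝ) ≤ X / 8 := by linarith
    have h2 : (1 : ℝ) ≤ X / (2 * (η * A)) := by
      rw [le_div_iff₀ (by positivity)]
      nlinarith
    have h3 : (X : ℝ) / (η * A) = 2 * (X / (2 * (η * A))) := by
      rw [mul_div_assoc', mul_div_mul_left _ _ (by norm_num : (2:ℝ) ≠ 0)]
    have h4 : 3 * (X : ℝ) / (2 * (η * A)) = 3 * (X / (2 * (η * A))) := by ring
    rw [h4]
    linarith
  have hGpos : (0 : ℝ) ≤ G.card := Nat.cast_nonneg _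
  have h1 : η * A ≤ G.card * (3 * X / (2 * (η * A))) :=
    hScard.trans (hcardr.trans (mul_le_mul_of_nonneg_left hBX hGpos))
  have h2 : 2 * (η * A) ^ 2 ≤ G.card * (3 * X) := by
    have h3 : (G.card : ℝ) * (3 * X / (2 * (η * A))) * (2 * (η * A)) = G.card * (3 * X) := by
      rw [mul_assoc, div_mul_cancel₀ _ (by positivity)]
    have h4 := mul_le_mul_of_nonneg_right h1 (show 0 ≤ 2 * (η * A) by positivity)
    rw [h3] at h4
    linarith [show η * A * (2 * (η * A)) = 2 * (η * A) ^ 2 by ring]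
  rw [div_le_iff₀ (by linarith)]
  have h3 : (Y : ℝ) ^ 2 ≤ 256 * (A : ℝ) ^ 2 := by nlinarith
  have h4 : η ^ 2 / (256 * 3) * (Y : ℝ) ^ 2 ≤ η ^ 2 * (A : ℝ) ^ 2 / 3 := by
    have : η ^ 2 / (256 * 3) * (Y : ℝ) ^ 2 ≤ η ^ 2 / (256 * 3) * (256 * (A : ℝ) ^ 2) :=
      mul_le_mul_of_nonneg_left h3 (by positivity)
    refine this.trans (le_of_eq ?_)
    ring
  nlinarith [sq_nonneg (η * A)]

end Pool.Agent.W409.CS
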