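import Pool.Agent.W409.CS.Two

set_option autoImplicit false

/-! # Two-point products of the Liouville function in all short intervals: sums -/

namespace Pool.Agent.W409.CS

open Finset Pool.Agent.H376R2.MR

/-- **Two-point products of Liouville values in short intervals.** -/
theorem two : ∃ c : ℝ, 0 < c ∧ ∃ C : ℝ, 0 < C ∧ ∀ k q : ℕ, 1 ≤ k → 1 ≤ q →
    ∀ ξ : ℕ → ℤ, (∀ n, ξ n = 1 ∨ ξ n = -1) → (∀ n, ξ (n + q) = ξ n) →
    (∀ x y : ℕ, y ≤ x → C * ((q : ℝ) * k * x) ≤ (y : ℝ) ^ 2 →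
      (∀ σ : ℤ, (σ = 1 ∨ σ = -1) → c * (y : ℝ) ^ 2 / ((q : ℝ) * k * x) ≤
        (((Ioc x (x + y)).filter (fun n =>
          ξ n * ((-1) ^ ArithmeticFunction.cardFactors n *
            (-1) ^ ArithmeticFunction.cardFactors (n + k)) = σ)).card : ℝ)) ∧
      |∑ n ∈ Ioc x (x + y), (ξ n : ℝ) *
          ((-1 : ℝ) ^ ArithmeticFunction.cardFactors n *
            (-1 : ℝ) ^ ArithmeticFunction.cardFactors (n + k))| ≤
        y - 2 * c * (y : ℝ) ^ 2 / ((q : ℝ) * k * x)) ∧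
    (∀ x : ℕ, C * ((q : ℝ) * k) ≤ x →
      |∑ n ∈ Icc 1 x, (ξ n : ℝ) *
          ((-1 : ℝ) ^ ArithmeticFunction.cardFactors n *
            (-1 : ℝ) ^ ArithmeticFunction.cardFactors (n + k))| ≤
        (1 - c / ((q : ℝ) * k)) * x) := by
  obtain ⟨c, hc, C, hC, hmain⟩ := main2
  refine ⟨c / 2, by positivity, 4 * C + 4, by positivity, ?_⟩
  intro k q hk hq ξ hξ hper
  have hkr : (1 : ℝ) ≤ k := by exact_mod_cast hk
  have hqr : (1 : ℝ) ≤ q := by exact_mod_cast hq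
  have hqk : (1 : ℝ) ≤ q * k := by nlinarith
  have hpm : ∀ n, ξ n * (lam n * lam (n + k)) = 1 ∨ ξ n * (lam n * lam (n + k)) = -1 := fun n => pm_mul' (hξ n) (pm_mul' (lam_pm' n) (lam_pm' (n + k)))
  have hcast : ∀ n, (ξ n : ℝ) * ((-1 : ℝ) ^ ArithmeticFunction.cardFactors n *
            (-1 : ℝ) ^ ArithmeticFunction.cardFactors (n + k)) =
      ((ξ n * (lam n * lam (n + k)) : ℤ) : ℝ) := by
    intro n
    unfold lam; push_cast; ring
  have key : ∀ x y : ℕ, y ≤ x → C * ((q : ℝ) * k * x) ≤ (y : ℝ) ^ 2 →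
      |∑ n ∈ Ioc x (x + y), ((ξ n * (lam n * lam (n + k)) : ℤ) : ℝ)| ≤
        y - 2 * (c * (y : ℝ) ^ 2 / ((q : ℝ) * k * x)) := by
    intro x y hyx hCx
    have h1 := sum_le' (Ioc x (x + y)) (fun n => ξ n * (lam n * lam (n + k))) hpm _
      (fun σ hσ => hmain k q x y hk hq hyx hCx ξ hξ hper σ hσ)
    rw [Nat.card_Ioc, Nat.add_sub_cancel_left] at h1
    exact h1
  refine ⟨?_, ?_⟩
  · intro x y hyx hCx
    have hx0 : (0 : ℝ) ≤ (q : ℝ) * k * x := by positivity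
    have hCx' : C * ((q : ℝ) * k * x) ≤ (y : ℝ) ^ 2 := by nlinarith
    have hle : c / 2 * (y : ℝ) ^ 2 / ((q : ℝ) * k * x) ≤ c * (y : ℝ) ^ 2 / ((q : ℝ) * k * x) := by
      apply div_le_div_of_nonneg_right _ hx0
      apply mul_le_mul_of_nonneg_right _ (sq_nonneg _)
      linarith
    refine ⟨?_, ?_⟩
    · intro σ hσ
      exact hle.trans (hmain k q x y hk hq hyx hCx' ξ hξ hper σ hσ)
    · rw [Finset.sum_congr rfl fun n _ => hcast n]
      refine (key x y hyx hCx').trans ?_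
      have h1 : 2 * (c / 2) * (y : ℝ) ^ 2 / ((q : ℝ) * k * x) =
          2 * (c / 2 * (y : ℝ) ^ 2 / ((q : ℝ) * k * x)) := by ring
      rw [h1]
      linarith
  · intro x hx
    rw [Finset.sum_congr rfl fun n _ => hcast n]
    set z : ℕ := x / 2 with hz
    have hxr : (4 : ℝ) ≤ x := by nlinarith
    have hx4 : 4 ≤ x := by exact_mod_cast hxr
    have hz1 : 2 * z ≤ x := by omega
    have hz2 : x ≤ 4 * z := by omega
    have hz3 : 1 ≤ z := by omega
    have hz2r : (x : ℝ) ≤ 4 * z := by exact_mod_cast hz2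
    have hz3r : (1 : ℝ) ≤ z := by exact_mod_cast hz3
    have hCz : C * ((q : ℝ) * k * z) ≤ (z : ℝ) ^ 2 := by
      have h1 : C * ((q : ℝ) * k) ≤ z := by nlinarith
      nlinarith
    have h1 := key z z le_rfl hCz
    have hsplit : Icc 1 x = Ioc 0 z ∪ (Ioc z (z + z) ∪ Ioc (z + z) x) := by
      ext n
      simp only [mem_Icc, mem_union, mem_Ioc]
      omega
    have hd1 : Disjoint (Ioc 0 z) (Ioc z (z + z) ∪ Ioc (z + z) x) := by
      rw [Finset.disjoint_left]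
      intro n h2 h3
      simp only [mem_union, mem_Ioc] at h2 h3
      omega
    have hd2 : Disjoint (Ioc z (z + z)) (Ioc (z + z) x) := by
      rw [Finset.disjoint_left]
      intro n h2 h3
      simp only [mem_Ioc] at h2 h3
      omega
    have htriv : ∀ s : Finset ℕ, |∑ n ∈ s, ((ξ n * (lam n * lam (n + k)) : ℤ) : ℝ)| ≤ s.card := by
      intro s
      refine (Finset.abs_sum_le_sum_abs _ _).trans ?_
      have h2 : ∑ n ∈ s, |((ξ n * (lam n * lam (n + k)) : ℤ) : ℝ)| = ∑ _n ∈ s, (1 : ℝ) := by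
        refine Finset.sum_congr rfl fun n _ => ?_
        rcases hpm n with h | h <;> rw [h] <;> simp
      rw [h2, Finset.sum_const, nsmul_eq_mul, mul_one]
    rw [hsplit, Finset.sum_union hd1, Finset.sum_union hd2]
    have h2 := htriv (Ioc 0 z)
    have h3 := htriv (Ioc (z + z) x)
    rw [Nat.card_Ioc] at h2 h3
    have h4 : ((z - 0 : ℕ) : ℝ) = z := by rw [Nat.sub_zero]
    have h5 : ((x - (z + z) : ℕ) : ℝ) = x - 2 * z := by
      rw [Nat.cast_sub (by omega)]; push_cast; ring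
    rw [h4] at h2
    rw [h5] at h3
    have h6 : c * (z : ℝ) ^ 2 / ((q : ℝ) * k * z) = c / (q * k) * z := by
      have : (z : ℝ) ≠ 0 := by positivity
      field_simp
    rw [h6] at h1
    have h7 : (c / 2) / ((q : ℝ) * k) * x ≤ 2 * (c / (q * k) * z) := by
      have e1 : (c / 2) / ((q : ℝ) * k) * x = (c / (q * k)) * (x / 2) := by ring
      have e2 : 2 * (c / ((q : ℝ) * k) * z) = (c / (q * k)) * (2 * z) := by ring
      rw [e1, e2]
      apply mul_le_mul_of_nonneg_left _ (by positivity)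
      linarith
    calc |∑ n ∈ Ioc 0 z, ((ξ n * (lam n * lam (n + k)) : ℤ) : ℝ) + (∑ n ∈ Ioc z (z + z), ((ξ n * (lam n * lam (n + k)) : ℤ) : ℝ) +
          ∑ n ∈ Ioc (z + z) x, ((ξ n * (lam n * lam (n + k)) : ℤ) : ℝ))|
        ≤ |∑ n ∈ Ioc 0 z, ((ξ n * (lam n * lam (n + k)) : ℤ) : ℝ)| + (|∑ n ∈ Ioc z (z + z), ((ξ n * (lam n * lam (n + k)) : ℤ) : ℝ)| +
          |∑ n ∈ Ioc (z + z) x, ((ξ n * (lam n * lam (n + k)) : ℤ) : ℝ)|) :=
          (abs_add_le _ _).trans (add_le_add le_rfl (abs_add_le _ _))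
      _ ≤ (1 - c / 2 / ((q : ℝ) * k)) * x := by
          rw [sub_mul, one_mul]
          linarith

end Pool.Agent.W409.CS
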